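import Pool.Agent.H58.PF.Targets
import Pool.Agent.H64.AG.Fin
import Pool.Agent.H64.AG.PRM
import Pool.Agent.H87.AG.GF
import Pool.Agent.H20.SL.Final
import Pool.Agent.H14.SL.NORM
import Pool.Agent.H29.SL.CL
import Pool.Agent.H97.SL.CT
import Pool.Agent.H70.SL.CTD
import Pool.Agent.H33.SL.CAN
import Pool.Agent.H33.SL.BIU

/-! # Assembly: the independence of Q1 -/

set_option autoImplicit false

open Topology Cardinal

namespace Pool.Agent.H64.PF

open Pool.Agent.H20.SL Pool.Agent.H64.AK Pool.Agent.H64.AG Pool.Agent.H60.CP Pool.Agent.H58.PF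

/-- the continuum hypothesis refutes the positive answer -/
theorem ch_negative : #ℝ = ℵ₁ → ¬ ArhangelskiiPositive := by
  intro hCH hpos
  have h := dominating_large Pool.Agent.H29.SL.cl Pool.Agent.H97.SL.ct Pool.Agent.H70.SL.ctd
      Pool.Agent.H33.SL.CAN.can Pool.Agent.H33.SL.BIU.biu hpos Set.univ
      (fun f => ⟨f, trivial, Filter.Eventually.of_forall fun _ => le_rfl⟩)
  have h2 : #(Set.univ : Set (ℕ → ℕ)) = #ℝ := by
    rw [Cardinal.mk_univ, Cardinal.mk_real]
    simp
  rw [h2, hCH] at h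
  exact lt_irrefl _ h

/-- Martin's axiom -/
theorem ma_equiv : MA1 → ∀ (X : Type) [TopologicalSpace X] [CompactSpace X], InCpLindelof X →
    (CT X ↔ LindelofSpace (Cp X)) ∧
      (CT X ↔ ∀ F : Set X, IsClosed F → ∀ (X₁ : Type) [TopologicalSpace X₁] [T2Space X₁]
        (g : F → X₁), Continuous g → Function.Surjective g → InCpTychonoffLindelof X₁) := by
  intro hMA X _ _ hX
  rcases Pool.Agent.H64.AG.final (prm Pool.Agent.H87.AG.gf cc' Pool.Agent.H47.AG.tp1 tp')
    Pool.Agent.H87.AG.gf X hX with h | h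
  · exact absurd hMA h
  · exact h

/-- the proper forcing axiom gives the positive answer -/
theorem pfa_positive (hFIN : T_FIN) (hCCP : T_CCP) : PFA → ∀ (X : Type) [TopologicalSpace X]
    [CompactSpace X], InCpLindelof X → CT X ∧ LindelofSpace (Cp X) ∧
      ∀ F : Set X, IsClosed F → ∀ (X₁ : Type) [TopologicalSpace X₁] [T2Space X₁]
        (g : F → X₁), Continuous g → Function.Surjective g → InCpTychonoffLindelof X₁ := by
  intro hP X _ _ hX
  have hct : CT X := hFIN hP X hX
  have h := ma_equiv (hCCP hP) X hX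
  exact ⟨hct, h.1.1 hct, h.2.1 hct⟩

end Pool.Agent.H64.PF
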