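import Pool.Agent.H64.PF.OMN

/-! # EMB: from the copy of `ω₁` to an embedding of the one-point compactification -/

set_option autoImplicit false

open Topology Cardinal

namespace Pool.Agent.H64.PF

open Pool.Agent.H20.SL Pool.Agent.H64.AK Pool.Agent.H64.AG Pool.Agent.H60.CP Pool.Agent.H58.PF

theorem om_nonempty : Nonempty Om := ⟨(bdd (W := Om) (C := ∅) Set.countable_empty).choose⟩

/-- compactness for decreasing families -/
theorem common {Z : Type} [TopologicalSpace Z] [CompactSpace Z] (S : Om → Set Z)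
    (hS : ∀ b b', b ≤ b' → S b' ⊆ S b) (hne : ∀ b, (S b).Nonempty) :
    ∃ x, ∀ b, x ∈ closure (S b) := by
  have := om_nonempty
  have h := IsCompact.nonempty_iInter_of_directed_nonempty_isCompact_isClosed
    (fun b => closure (S b)) (by
      intro b b'
      refine ⟨max b b', closure_mono (hS _ _ (le_max_left _ _)),
        closure_mono (hS _ _ (le_max_right _ _))⟩) (fun b => (hne b).closure)
      (fun b => isClosed_closure.isCompact) (fun b => isClosed_closure)
  obtain ⟨x, hx⟩ := h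
  exact ⟨x, fun b => Set.mem_iInter.1 hx b⟩

section
variable {Z : Type} [TopologicalSpace Z] {g : Z → XT Om} {r : {z // g z ≠ OnePoint.infty} → Om}
  {C : Set {z // g z ≠ OnePoint.infty}}

/-- the tail above `b` -/
def Tl (r : {z // g z ≠ OnePoint.infty} → Om) (C : Set {z // g z ≠ OnePoint.infty}) (b : Om) :
    Set Z := {x | ∃ w ∈ C, b < r w ∧ x = w.1}

omit [TopologicalSpace Z] in
theorem tl_anti (b b' : Om) (h : b ≤ b') : Tl r C b' ⊆ Tl r C b := by
  rintro x ⟨w, hw, hb, rfl⟩
  exact ⟨w, hw, h.trans_lt hb, rfl⟩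

theorem tl_nonempty (hC : Copy r C) (b : Om) : (Tl r C b).Nonempty := by
  obtain ⟨w, hw, hb⟩ := hC.unb b
  exact ⟨w.1, w, hw, hb, rfl⟩

/-- two interleaved unbounded subsets of `C` have a common limit in `C` -/
theorem interleave (hC : Copy r C) (f1 f2 : Om → {z // g z ≠ OnePoint.infty})
    (h1 : ∀ b, f1 b ∈ C ∧ b < r (f1 b)) (h2 : ∀ b, f2 b ∈ C ∧ b < r (f2 b)) :
    ∃ y ∈ C, ∀ V : Set {z // g z ≠ OnePoint.infty}, IsOpen V → y ∈ V →
      ∃ b b', f1 b ∈ V ∧ f2 b' ∈ V := by
  obtain ⟨w0, hw0, -⟩ := hC.unb (Classical.choice om_nonempty)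
  set β : ℕ → Om := fun n => Nat.rec (r w0) (fun _ b => r (f2 (r (f1 b)))) n with hβ
  have hβs : ∀ n, β (n + 1) = r (f2 (r (f1 (β n)))) := fun n => rfl
  have hlt1 : ∀ n, β n < r (f1 (β n)) := fun n => (h1 _).2
  have hlt2 : ∀ n, r (f1 (β n)) < β (n + 1) := fun n => by
    rw [hβs]
    exact (h2 _).2
  obtain ⟨w, hw⟩ := bdd (W := Om) (Set.countable_range β)
  have hne : ({a | ∃ y ∈ C, r y = a ∧ ∀ n, β n < a} : Set Om).Nonempty := by
    obtain ⟨y, hy, hyw⟩ := hC.unb w
    exact ⟨r y, y, hy, rfl, fun n => (hw _ ⟨n, rfl⟩).trans hyw⟩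
  obtain ⟨e, ⟨y, hy, hye, hyn⟩, hmin⟩ := (OmegaOne.wf (W := Om)).wf.has_min _ hne
  refine ⟨y, hy, fun V hV hyV => ?_⟩
  obtain ⟨o, ho, hoV⟩ := hC.cont y hy V hV hyV
  have h3 : ∃ n, Abv r o (f1 (β n)) ∧ Abv r o (f2 (r (f1 (β n)))) := by
    rcases o with _ | b
    · exact ⟨0, fun b hb => (by simp at hb), fun b hb => (by simp at hb)⟩
    · obtain ⟨hbC, hby⟩ := ho b rfl
      have h4 : ∃ n, r b ≤ β n := by
        by_contra hcon
        push Not at hcon
        exact hmin (r b) ⟨b, hbC, rfl, hcon⟩ (hye ▸ hby)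
      obtain ⟨n, hn⟩ := h4
      refine ⟨n, ?_, ?_⟩
      · rintro b' hb'
        obtain rfl := Option.some.inj hb'
        exact hn.trans_lt (hlt1 n)
      · rintro b' hb'
        obtain rfl := Option.some.inj hb'
        exact (hn.trans_lt (hlt1 n)).trans (hlt2 n)
  obtain ⟨n, hn1, hn2⟩ := h3
  refine ⟨β n, r (f1 (β n)), hoV _ (h1 _).1 hn1 ?_, hoV _ (h2 _).1 hn2 ?_⟩
  · rw [hye]
    exact (hlt2 n).trans (hyn (n + 1))
  · rw [hye]
    exact hyn (n + 1)

/-- the limit of the tails is unique -/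
theorem uniq [CompactSpace Z] [T2Space Z] (hC : Copy r C) {z1 z2 : Z}
    (h1 : ∀ b, z1 ∈ closure (Tl r C b)) (h2 : ∀ b, z2 ∈ closure (Tl r C b)) : z1 = z2 := by
  by_contra hne
  obtain ⟨O1, hz1, hO1, O2, hz2, hO2, hdis⟩ := exists_open_nhds_disjoint_closure hne
  have k1 : ∀ b, ∃ w : {z // g z ≠ OnePoint.infty}, (w ∈ C ∧ b < r w) ∧ w.1 ∈ O1 := by
    intro b
    obtain ⟨x, hx, w, hw, hb, rfl⟩ := mem_closure_iff.1 (h1 b) O1 hO1 hz1
    exact ⟨w, ⟨hw, hb⟩, hx⟩
  have k2 : ∀ b, ∃ w : {z // g z ≠ OnePoint.infty}, (w ∈ C ∧ b < r w) ∧ w.1 ∈ O2 := by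
    intro b
    obtain ⟨x, hx, w, hw, hb, rfl⟩ := mem_closure_iff.1 (h2 b) O2 hO2 hz2
    exact ⟨w, ⟨hw, hb⟩, hx⟩
  choose f1 hf1 hf1' using k1
  choose f2 hf2 hf2' using k2
  obtain ⟨y, -, hy⟩ := interleave hC f1 f2 hf1 hf2
  have c1 : y.1 ∈ closure O1 := by
    by_contra hcon
    obtain ⟨b, b', hb, -⟩ := hy {w | w.1 ∉ closure O1}
      (isClosed_closure.isOpen_compl.preimage continuous_subtype_val) hcon
    exact hb (subset_closure (hf1' b))
  have c2 : y.1 ∈ closure O2 := by
    by_contra hcon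
    obtain ⟨b, b', -, hb⟩ := hy {w | w.1 ∉ closure O2}
      (isClosed_closure.isOpen_compl.preimage continuous_subtype_val) hcon
    exact hb (subset_closure (hf2' b'))
  exact Set.disjoint_left.1 hdis c1 c2

end

theorem emb' : T_EMB := by
  classical
  intro Z _ _ _ g hg r hr C hC
  obtain ⟨z, hz⟩ := common (Tl r C) tl_anti (tl_nonempty hC)
  have hgz : g z = OnePoint.infty := by
    by_contra hcon
    set t := r ⟨z, hcon⟩ with ht
    have hgt : g z = inc t := hr ⟨z, hcon⟩
    have hU : IsOpen (g ⁻¹' ((OnePoint.some : TT Om → XT Om) '' dn t)) :=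
      (OnePoint.isOpen_image_coe.2 (dn_open t)).preimage hg
    obtain ⟨x, hx, w, hw, hb, rfl⟩ := mem_closure_iff.1 (hz t) _ hU
      ⟨t, mem_dn_self t, hgt.symm⟩
    obtain ⟨s, hs, hE⟩ := hx
    have h1 : inc s = inc (r w) := hE.trans (hr w)
    have h2 : s = r w := inc_injective h1
    have hs' : (show Om from s) ≤ t := hs
    rw [h2] at hs'
    exact absurd hb (not_lt.2 hs')
  have htail : ∀ O : Set Z, IsOpen O → z ∈ O → ∃ b, Tl r C b ⊆ O := by
    intro O hO hzO
    by_contra hcon
    push Not at hcon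
    obtain ⟨x, hx⟩ := common (fun b => Tl r C b ∩ Oᶜ)
      (fun b b' h => Set.inter_subset_inter_left _ (tl_anti b b' h)) (by
        intro b
        obtain ⟨y, hy, hyO⟩ := Set.not_subset.1 (hcon b)
        exact ⟨y, hy, hyO⟩)
    have h1 : x = z := uniq hC (fun b => closure_mono Set.inter_subset_left (hx b)) hz
    have h2 : x ∈ Oᶜ := by
      have h3 := closure_mono Set.inter_subset_right (hx (Classical.choice om_nonempty))
      rwa [hO.isClosed_compl.closure_eq] at h3
    exact h2 (h1 ▸ hzO)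
  set R : Set Om := {a | ∃ x ∈ C, r x = a} with hR
  have hpt : ∀ a : R, ∃ x ∈ C, r x = a.1 := fun a => a.2
  choose pt hptC hptr using hpt
  refine ⟨R, ?_, fun p => (show Option R from p).elim z fun a => (pt a).1, ?_, ?_⟩
  · intro hcount
    obtain ⟨w, hw⟩ := bdd (W := Om) hcount
    obtain ⟨x, hx, hxw⟩ := hC.unb w
    exact absurd (hw (r x) ⟨x, hx, rfl⟩) (not_lt.2 hxw.le)
  · rw [OnePoint.continuous_iff]
    refine ⟨?_, ?_⟩
    · rw [tendsto_nhds]
      intro O hO hzO
      obtain ⟨b, hb⟩ := htail O hO hzO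
      obtain ⟨x, hx, hxb⟩ := hC.unb b
      refine Filter.mem_of_superset (IsCompact.compl_mem_coclosedCompact_of_isClosed
        (dn_compact (sub_tree R) (⟨r x, x, hx, rfl⟩ : R)) (dn_closed (sub_tree R) (sub_haus R) _)) ?_
      intro a ha
      have ha' : ¬ (show R from a) ≤ (⟨r x, x, hx, rfl⟩ : R) := ha
      have h1 : r x < (show R from a).1 := by
        rw [not_le] at ha'
        exact ha'
      exact hb ⟨pt a, hptC a, (hxb.trans h1).trans_eq (hptr a).symm, rfl⟩
    · rw [continuous_def]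
      intro O hO
      rw [tt_isOpen_iff]
      intro a ha
      have ha' : (pt a).1 ∈ O := ha
      obtain ⟨o, ho, hoV⟩ := hC.cont (pt a) (hptC a) (Subtype.val ⁻¹' O)
        (hO.preimage continuous_subtype_val) ha'
      rcases o with _ | b
      · refine ⟨∅, by simp, fun x hx _ => ?_⟩
        rcases hx.lt_or_eq with hlt | heq
        · refine hoV (pt x) (hptC x) (fun b hb => by simp at hb) ?_
          rw [hptr, hptr]
          exact hlt
        · rw [heq]
          exact ha
      · obtain ⟨hbC, hba⟩ := ho b rfl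
        refine ⟨{⟨r b, b, hbC, rfl⟩}, ?_, fun x hx hxF => ?_⟩
        · intro s hs
          rw [Finset.mem_singleton] at hs
          rw [hs]
          show r b < a.1
          rw [← hptr a]
          exact hba
        · have h1 : ¬ x ≤ (⟨r b, b, hbC, rfl⟩ : R) := hxF _ (Finset.mem_singleton_self _)
          rcases hx.lt_or_eq with hlt | heq
          · refine hoV (pt x) (hptC x) ?_ ?_
            · intro b' hb'
              obtain rfl := Option.some.inj hb'
              rw [hptr]
              rw [not_le] at h1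
              exact h1
            · rw [hptr, hptr]
              exact hlt
          · rw [heq]
            exact ha
  · have hne : ∀ a : R, z ≠ (pt a).1 := fun a h => (pt a).2 (h ▸ hgz)
    intro p q hpq
    induction p using OnePoint.rec with
    | infty =>
      induction q using OnePoint.rec with
      | infty => rfl
      | coe b => exact absurd hpq (hne b)
    | coe a =>
      induction q using OnePoint.rec with
      | infty => exact absurd (Eq.symm hpq) (hne a)
      | coe b =>
        have h1 : pt a = pt b := Subtype.ext hpq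
        have h2 : (show R from a) = (show R from b) :=
          Subtype.ext ((hptr a).symm.trans ((congrArg r h1).trans (hptr b)))
        exact congrArg OnePoint.some h2

end Pool.Agent.H64.PF
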