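import Pool.Agent.H58.PF.Targets

/-! # OMN: uncountable sets of countable ordinals -/

set_option autoImplicit false

open Topology Cardinal

namespace Pool.Agent.H64.PF

open Pool.Agent.H20.SL Pool.Agent.H64.AK Pool.Agent.H64.AG Pool.Agent.H60.CP Pool.Agent.H58.PF

theorem sub_tree (R : Set Om) : IsTree R where
  comp := fun a b _ _ _ => le_total a b
  wf := by
    have h := (OmegaOne.wf (W := Om)).wf
    exact InvImage.wf (fun a : R => (a : Om)) h

theorem sub_haus (R : Set Om) : Haus R := by
  intro x y _ h
  rcases lt_trichotomy x y with h1 | h1 | h1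
  · exact absurd ((h x).2 h1) (lt_irrefl _)
  · exact h1
  · exact absurd ((h y).1 h1) (lt_irrefl _)

theorem sub_cIic (R : Set Om) (t : R) : (Set.Iic t).Countable := by
  have h : (Set.Iic t) = (Subtype.val : R → Om) ⁻¹' (Set.Iic t.1) := by
    ext x
    simp
  rw [h]
  exact (cIic t.1).preimage Subtype.val_injective

theorem omn : T_OMN := by
  intro R hR h
  have hF : FB R := fb_of_inCp Pool.Agent.H29.SL.cl Pool.Agent.H97.SL.ct Pool.Agent.H70.SL.ctd
    (sub_tree R) (sub_haus R) (fun t => sub_cIic R t) h
  have h1 : (Set.univ : Set R).Countable := by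
    refine hF Set.univ (fun _ _ _ _ => trivial) (fun w _ => ?_) ?_
    · refine Set.Subsingleton.finite ?_
      rintro u ⟨hu, -⟩ v ⟨hv, -⟩
      rcases lt_trichotomy u v with h1 | h1 | h1
      · exact absurd h1 (hv.2 hu.1)
      · exact h1
      · exact absurd h1 (hu.2 hv.1)
    · refine Set.Subsingleton.finite ?_
      rintro u ⟨-, hu⟩ v ⟨-, hv⟩
      rcases le_total u v with h1 | h1
      · exact le_antisymm h1 (hv h1)
      · exact le_antisymm (hu h1) h1
  rw [Set.countable_univ_iff] at h1
  exact hR h1

end Pool.Agent.H64.PF
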