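import Pool.Agent.H58.PF.Targets

/-! # QUO: the quotient of small weight -/

set_option autoImplicit false

open Topology Cardinal

namespace Pool.Agent.H64.PF

open Pool.Agent.H20.SL Pool.Agent.H64.AK Pool.Agent.H64.AG Pool.Agent.H60.CP Pool.Agent.H58.PF

/-- finitely many functions separate a clopen set from its complement -/
theorem exists_fin {F : Type} [TopologicalSpace F] [CompactSpace F] (L : Set (F → ℝ))
    (hLc : ∀ f ∈ L, Continuous f) (hLs : ∀ y y', y ≠ y' → ∃ f ∈ L, f y ≠ f y') (A : Set F)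
    (hA : IsClopen A) : ∃ T : Set (F → ℝ), T ⊆ L ∧ T.Finite ∧
      ∀ y y', (∀ f ∈ T, f y = f y') → (y ∈ A ↔ y' ∈ A) := by
  classical
  have hK : IsCompact (A ×ˢ Aᶜ) := hA.isClosed.isCompact.prod hA.compl.isClosed.isCompact
  obtain ⟨T, hT⟩ := hK.elim_finite_subcover (fun f : L => {p : F × F | f.1 p.1 ≠ f.1 p.2})
    (fun f => by
      have h := hLc f.1 f.2
      exact isOpen_ne_fun (h.comp continuous_fst) (h.comp continuous_snd)) (by
    rintro ⟨y, y'⟩ ⟨hy, hy'⟩
    obtain ⟨f, hf, hne⟩ := hLs y y' (by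
      rintro rfl
      exact hy' hy)
    exact Set.mem_iUnion.2 ⟨⟨f, hf⟩, hne⟩)
  have key : ∀ y y', y ∈ A → (∀ f ∈ T, f.1 y = f.1 y') → y' ∈ A := by
    intro y y' hy hyy
    by_contra hy'
    have h1 := hT (show (y, y') ∈ A ×ˢ Aᶜ from ⟨hy, hy'⟩)
    simp only [Set.mem_iUnion] at h1
    obtain ⟨f, hf, hne⟩ := h1
    exact hne (hyy f hf)
  refine ⟨Subtype.val '' (T : Set L), ?_, T.finite_toSet.image _, fun y y' h => ⟨fun hy => ?_,
    fun hy' => ?_⟩⟩
  · rintro _ ⟨f, -, rfl⟩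
    exact f.2
  · exact key y y' hy fun f hf => h f.1 ⟨f, hf, rfl⟩
  · exact key y' y hy' fun f hf => (h f.1 ⟨f, hf, rfl⟩).symm

/-- a subspace of a product of lines has a small base -/
theorem exists_base {K : Type} (hK : #K ≤ ℵ₁) (Z : Set (K → ℝ)) :
    ∃ (ι : Type) (B : ι → Set Z), #ι ≤ ℵ₁ ∧ Base B := by
  classical
  refine ⟨List (K × ℚ × ℚ), fun l => {z | ∀ t ∈ l, (t.2.1 : ℝ) < z.1 t.1 ∧ z.1 t.1 < t.2.2},
    ?_, ?_, ?_⟩
  · refine (Cardinal.mk_list_le_max _).trans (max_le (Cardinal.aleph0_le_aleph 1) ?_)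
    rw [Cardinal.mk_prod, Cardinal.mk_prod]
    simp only [Cardinal.lift_uzero, Cardinal.mkRat, Cardinal.aleph0_mul_aleph0]
    refine (mul_le_mul' hK le_rfl).trans ?_
    exact (Cardinal.mul_le_max_of_aleph0_le_left (Cardinal.aleph0_le_aleph 1)).trans
      (max_le le_rfl (Cardinal.aleph0_le_aleph 1))
  · intro l
    induction l with
    | nil => simp
    | cons t l ih =>
      have h1 : {z : Z | ∀ t' ∈ t :: l, (t'.2.1 : ℝ) < z.1 t'.1 ∧ z.1 t'.1 < t'.2.2} =
          {z : Z | (t.2.1 : ℝ) < z.1 t.1 ∧ z.1 t.1 < t.2.2} ∩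
          {z : Z | ∀ t' ∈ l, (t'.2.1 : ℝ) < z.1 t'.1 ∧ z.1 t'.1 < t'.2.2} := by
        ext z
        simp
      show IsOpen {z : Z | ∀ t' ∈ t :: l, (t'.2.1 : ℝ) < z.1 t'.1 ∧ z.1 t'.1 < t'.2.2}
      rw [h1]
      refine IsOpen.inter ?_ ih
      have h2 : Continuous fun z : Z => z.1 t.1 :=
        (continuous_apply t.1).comp continuous_subtype_val
      exact (isOpen_lt continuous_const h2).inter (isOpen_lt h2 continuous_const)
  · intro x V hV hx
    obtain ⟨V', hV', rfl⟩ := isOpen_induced_iff.1 hV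
    obtain ⟨I, u, hu, hIu⟩ := isOpen_pi_iff.1 hV' x.1 hx
    have h1 : ∀ i : K, ∃ a b : ℚ, i ∈ I → ((a : ℝ) < x.1 i ∧ x.1 i < b ∧
        ∀ y : ℝ, a < y → y < b → y ∈ u i) := by
      intro i
      by_cases hi : i ∈ I
      · obtain ⟨hui, hxi⟩ := hu i hi
        obtain ⟨ε, hε, hball⟩ := Metric.isOpen_iff.1 hui _ hxi
        obtain ⟨a, ha1, ha2⟩ := exists_rat_btwn (show x.1 i - ε < x.1 i by linarith)
        obtain ⟨b, hb1, hb2⟩ := exists_rat_btwn (show x.1 i < x.1 i + ε by linarith)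
        refine ⟨a, b, fun _ => ⟨ha2, hb1, fun y hy1 hy2 => hball ?_⟩⟩
        rw [Metric.mem_ball, Real.dist_eq, abs_lt]
        constructor <;> linarith
      · exact ⟨0, 0, fun h => absurd h hi⟩
    choose a b hab using h1
    refine ⟨I.toList.map fun i => (i, a i, b i), ?_, ?_⟩
    · intro t ht
      obtain ⟨i, hi, rfl⟩ := List.mem_map.1 ht
      have h2 := hab i (Finset.mem_toList.1 hi)
      exact ⟨h2.1, h2.2.1⟩
    · intro z hz
      refine hIu ?_
      intro i hi
      have h2 := hz (i, a i, b i) (List.mem_map.2 ⟨i, Finset.mem_toList.2 hi, rfl⟩)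
      exact (hab i hi).2.2 _ h2.1 h2.2

theorem quo : T_QUO := by
  classical
  intro X _ _ _ hX hct
  obtain ⟨F, g, hF, hg, hgs⟩ := exists_map hct
  have hFc : CompactSpace F := isCompact_iff_compactSpace.1 hF.isCompact
  obtain ⟨L, hL, hLc, hLs⟩ := exists_family hX
  set L1 : Set (F → ℝ) := (fun f : X → ℝ => fun y : F => f y.1) '' L with hL1
  have hL1l : IsLindelof L1 := hL.image (continuous_pi fun y => continuous_apply y.1)
  have hL1c : ∀ f ∈ L1, Continuous f := by
    rintro _ ⟨f, hf, rfl⟩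
    exact (hLc f hf).comp continuous_subtype_val
  have hL1s : ∀ y y' : F, y ≠ y' → ∃ f ∈ L1, f y ≠ f y' := by
    intro y y' hne
    obtain ⟨f, hf, hfne⟩ := hLs y.1 y'.1 fun h => hne (Subtype.ext h)
    exact ⟨_, ⟨f, hf, rfl⟩, hfne⟩
  -- the clopen sets
  set A : Om → Set F := fun a => g ⁻¹' ((OnePoint.some : TT Om → XT Om) '' dn a) with hA
  have hAc : ∀ a, IsClopen (A a) := by
    intro a
    refine ⟨?_, ?_⟩
    · exact (OnePoint.isClosed_image_coe.2
        ⟨dn_closed om_tree om_haus a, dn_compact om_tree a⟩).preimage hg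
    · exact (OnePoint.isOpen_image_coe.2 (dn_open a)).preimage hg
  have hmem : ∀ (a : Om) (y : F), y ∈ A a ↔ ∃ t : Om, t ≤ a ∧ g y = inc t := by
    intro a y
    constructor
    · rintro ⟨t, ht, hE⟩
      exact ⟨t, ht, hE.symm⟩
    · rintro ⟨t, ht, hE⟩
      exact ⟨t, ht, hE.symm⟩
  choose T hTL hTf hTs using fun a => exists_fin L1 hL1c hL1s (A a) (hAc a)
  set K : Set (F → ℝ) := ⋃ a, T a with hK
  have hKL : K ⊆ L1 := Set.iUnion_subset hTL
  have hKc : #K ≤ ℵ₁ := by
    refine (Cardinal.mk_iUnion_le_sum_mk).trans ?_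
    refine (Cardinal.sum_le_sum _ (fun _ => ℵ₀) fun a =>
      (Cardinal.lt_aleph0_iff_finite.2 (hTf a)).le).trans ?_
    rw [Cardinal.sum_const, Cardinal.lift_id, Cardinal.lift_id, mk_Om]
    exact (Cardinal.mul_le_max_of_aleph0_le_left (Cardinal.aleph0_le_aleph 1)).trans
      (max_le le_rfl (Cardinal.aleph0_le_aleph 1))
  -- the quotient
  set ev : F → K → ℝ := fun y f => f.1 y with hev
  have hevc : Continuous ev := continuous_pi fun f => hL1c _ (hKL f.2)
  set Z : Set (K → ℝ) := Set.range ev with hZ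
  set ev' : F → Z := fun y => ⟨ev y, y, rfl⟩ with hev'
  have hev'c : Continuous ev' := hevc.subtype_mk _
  have hev's : Function.Surjective ev' := by
    rintro ⟨_, y, rfl⟩
    exact ⟨y, rfl⟩
  have hZc : CompactSpace Z := isCompact_iff_compactSpace.1 (isCompact_range hevc)
  have hq : IsQuotientMap ev' := hev'c.isClosedMap.isQuotientMap hev'c hev's
  choose σ hσ using hev's
  have hσ' : ∀ y, ev (σ (ev' y)) = ev y := fun y => congrArg Subtype.val (hσ (ev' y))
  have hgev : ∀ y y', ev y = ev y' → g y = g y' := by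
    have h1 : ∀ y y', ev y = ev y' → ∀ a, y ∈ A a ↔ y' ∈ A a := by
      intro y y' h a
      refine hTs a y y' fun f hf => ?_
      exact congrFun h ⟨f, Set.mem_iUnion.2 ⟨a, hf⟩⟩
    have h2 : ∀ y y', ev y = ev y' → ∀ t : Om, g y = inc t → g y' = inc t := by
      intro y y' h t ht
      obtain ⟨t', ht', hE⟩ := (hmem t y').1 ((h1 y y' h t).1 ((hmem t y).2 ⟨t, le_rfl, ht⟩))
      obtain ⟨t2, ht2, hE2⟩ := (hmem t' y).1 ((h1 y y' h t').2 ((hmem t' y').2 ⟨t', le_rfl, hE⟩))
      rw [ht] at hE2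
      have h3 := inc_injective hE2
      have h4 : t' = t := le_antisymm ht' (h3 ▸ ht2)
      rw [hE, h4]
    intro y y' h
    by_cases hy : ∃ t : Om, g y = inc t
    · obtain ⟨t, ht⟩ := hy
      rw [ht, h2 y y' h t ht]
    · by_cases hy' : ∃ t : Om, g y' = inc t
      · obtain ⟨t, ht⟩ := hy'
        exact absurd ⟨t, h2 y' y h.symm t ht⟩ hy
      · have h3 : ∀ z : XT Om, (¬ ∃ t : Om, z = inc t) → z = OnePoint.infty := by
          intro z hz
          induction z using OnePoint.rec with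
          | infty => rfl
          | coe t => exact absurd ⟨t, rfl⟩ hz
        rw [h3 _ hy, h3 _ hy']
  have hg' : ∀ y, g (σ (ev' y)) = g y := fun y => hgev _ _ (hσ' y)
  refine ⟨Z, inferInstance, fun z => g (σ z), hZc, inferInstance, ?_, ?_, ?_, ?_⟩
  · refine inCpLindelof_of ?_
    set L2 : Set (F → ℝ) := {f | f ∈ L1 ∧ ∀ y y', ev y = ev y' → f y = f y'} with hL2
    have hL2l : IsLindelof L2 := by
      have h1 : L2 = L1 ∩ {f : F → ℝ | ∀ y y', ev y = ev y' → f y = f y'} := rfl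
      rw [h1]
      refine hL1l.inter_right ?_
      simp only [Set.ofPred_forall]
      refine isClosed_iInter fun y => isClosed_iInter fun y' => isClosed_iInter fun _ => ?_
      exact isClosed_eq (continuous_apply y) (continuous_apply y')
    refine emb ((fun f : F → ℝ => fun z : Z => f (σ z)) '' L2) ?_ ?_ ?_
    · exact hL2l.image (continuous_pi fun z => continuous_apply (σ z))
    · rintro _ ⟨f, hf, rfl⟩
      rw [hq.continuous_iff]
      have h1 : (fun z : Z => f (σ z)) ∘ ev' = f := by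
        funext y
        exact hf.2 _ _ (hσ' y)
      rw [h1]
      exact hL1c f hf.1
    · intro z z' hne
      have h1 : ∃ f : K, z.1 f ≠ z'.1 f := by
        by_contra hcon
        push Not at hcon
        exact hne (Subtype.ext (funext hcon))
      obtain ⟨f, hf⟩ := h1
      refine ⟨_, ⟨f.1, ⟨hKL f.2, fun y y' h => congrFun h f⟩, rfl⟩, ?_⟩
      have h2 : ∀ z : Z, f.1 (σ z) = z.1 f := by
        intro z
        have h3 := congrArg Subtype.val (hσ z)
        exact congrFun h3 f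
      simp only [h2]
      exact hf
  · rw [hq.continuous_iff]
    have h1 : (fun z : Z => g (σ z)) ∘ ev' = g := funext hg'
    rw [h1]
    exact hg
  · intro a
    obtain ⟨y, hy⟩ := hgs a
    exact ⟨ev' y, (hg' y).trans hy⟩
  · exact exists_base hKc Z

end Pool.Agent.H64.PF
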